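import Mathlib

/-!
# One-variable inequalities for the flux method (module A)

`t > 0` is `log (1/ρ)`.  Everything is multiplied out by powers of `sinh t`.
-/

namespace PoolIM64

open Real

/-- A function vanishing at `0` with nonnegative derivative on `[0, ∞)` is nonnegative there. -/
theorem nonneg_of_deriv {f f' : ℝ → ℝ} (h0 : f 0 = 0)
    (hd : ∀ t : ℝ, 0 ≤ t → HasDerivAt f (f' t) t) (hp : ∀ t : ℝ, 0 ≤ t → 0 ≤ f' t) :
    ∀ t : ℝ, 0 ≤ t → 0 ≤ f t := by
  intro t ht
  have hmono : MonotoneOn f (Set.Ici (0 : ℝ)) := by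
    apply monotoneOn_of_deriv_nonneg (convex_Ici 0)
    · intro s hs
      exact (hd s hs).continuousAt.continuousWithinAt
    · intro s hs
      rw [interior_Ici] at hs
      exact (hd s (le_of_lt hs)).differentiableAt.differentiableWithinAt
    · intro s hs
      rw [interior_Ici] at hs
      rw [(hd s (le_of_lt hs)).deriv]
      exact hp s (le_of_lt hs)
  have := hmono (Set.mem_Ici.mpr le_rfl) (Set.mem_Ici.mpr ht) ht
  rw [h0] at this
  exact this

/-- `sinh t * exp (-t) ≤ t`. -/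
theorem sinh_mul_exp_neg_le {t : ℝ} (_ht : 0 ≤ t) : sinh t * exp (-t) ≤ t := by
  have h1 : sinh t * exp (-t) = (1 - exp (-(2 * t))) / 2 := by
    rw [sinh_eq]
    have h2 : exp t * exp (-t) = 1 := by rw [← exp_add]; simp
    have h3 : exp (-t) * exp (-t) = exp (-(2 * t)) := by
      rw [← exp_add]; congr 1; ring
    linear_combination (1 / 2) * h2 - (1 / 2) * h3
  have h4 := add_one_le_exp (-(2 * t))
  rw [h1]; linarith

/-- `t ≤ sinh t * cosh t`. -/
theorem le_sinh_mul_cosh {t : ℝ} (ht : 0 ≤ t) : t ≤ sinh t * cosh t := by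
  have h1 := self_le_sinh_iff.mpr ht
  have h2 := one_le_cosh t
  nlinarith

/-- `sinh t ≤ t * cosh t`. -/
theorem sinh_le_mul_cosh {t : ℝ} (ht : 0 ≤ t) : sinh t ≤ t * cosh t := by
  have key : ∀ t : ℝ, 0 ≤ t → 0 ≤ t * cosh t - sinh t := by
    apply nonneg_of_deriv (f' := fun t => t * sinh t)
    · simp
    · intro s _
      have h := ((hasDerivAt_id s).mul (hasDerivAt_cosh s)).sub (hasDerivAt_sinh s)
      have e : (1 * cosh s + id s * sinh s - cosh s : ℝ) = s * sinh s := by simp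
      rw [e] at h
      exact h
    · intro s hs
      exact mul_nonneg hs (sinh_nonneg_iff.mpr hs)
  linarith [key t ht]

/-- `0 < t * cosh t - sinh t` for `t > 0`. -/
theorem sinh_lt_mul_cosh {t : ℝ} (ht : 0 < t) : sinh t < t * cosh t := by
  have hmono : StrictMonoOn (fun t : ℝ => t * cosh t - sinh t) (Set.Ici (0 : ℝ)) := by
    apply strictMonoOn_of_deriv_pos (convex_Ici 0)
    · fun_prop
    · intro s hs
      rw [interior_Ici] at hs
      have h := ((hasDerivAt_id s).mul (hasDerivAt_cosh s)).sub (hasDerivAt_sinh s)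
      have e : (1 * cosh s + id s * sinh s - cosh s : ℝ) = s * sinh s := by simp
      rw [e] at h
      have h' : HasDerivAt (fun t : ℝ => t * cosh t - sinh t) (s * sinh s) s := h
      rw [h'.deriv]
      exact mul_pos hs (sinh_pos_iff.mpr hs)
  have := hmono (Set.mem_Ici.mpr le_rfl) (Set.mem_Ici.mpr ht.le) ht
  simp only [zero_mul, sinh_zero, sub_zero] at this
  linarith

/-- `t < sinh t * cosh t` for `t > 0`. -/
theorem lt_sinh_mul_cosh {t : ℝ} (ht : 0 < t) : t < sinh t * cosh t := by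
  have h1 := self_lt_sinh_iff.mpr ht
  have h2 := one_le_cosh t
  nlinarith

/-- `k ≥ ρ`: `exp (-t) * sinh t ^ 3 ≤ 3 γ` with `γ = (sinh t cosh t - t) / 2`. -/
theorem three_gamma_ge {t : ℝ} (ht : 0 ≤ t) :
    exp (-t) * sinh t ^ 3 ≤ 3 * ((sinh t * cosh t - t) / 2) := by
  have key : ∀ t : ℝ, 0 ≤ t → 0 ≤ 3 * ((sinh t * cosh t - t) / 2) - exp (-t) * sinh t ^ 3 := by
    apply nonneg_of_deriv (f' := fun t => 3 * sinh t ^ 2 -
      (-exp (-t) * sinh t ^ 3 + exp (-t) * (3 * sinh t ^ 2 * cosh t)))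
    · simp
    · intro s _
      have h1 : HasDerivAt (fun t : ℝ => sinh t * cosh t) (cosh s * cosh s + sinh s * sinh s) s :=
        (hasDerivAt_sinh s).mul (hasDerivAt_cosh s)
      have h2 : HasDerivAt (fun t : ℝ => 3 * ((sinh t * cosh t - t) / 2))
          (3 * ((cosh s * cosh s + sinh s * sinh s - 1) / 2)) s :=
        ((h1.sub (hasDerivAt_id s)).div_const 2).const_mul 3
      have h3 : HasDerivAt (fun t : ℝ => exp (-t)) (exp (-s) * (-1)) s :=
        (hasDerivAt_neg s).exp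
      have h4 : HasDerivAt (fun t : ℝ => sinh t ^ 3) (3 * sinh s ^ 2 * cosh s) s := by
        have := (hasDerivAt_sinh s).pow 3
        norm_num at this
        exact this
      have h5 := h2.sub (h3.mul h4)
      have hc := cosh_sq s
      have e : (3 * ((cosh s * cosh s + sinh s * sinh s - 1) / 2) -
          (exp (-s) * (-1) * sinh s ^ 3 + exp (-s) * (3 * sinh s ^ 2 * cosh s)) : ℝ) =
          3 * sinh s ^ 2 -
      (-exp (-s) * sinh s ^ 3 + exp (-s) * (3 * sinh s ^ 2 * cosh s)) := by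
        linear_combination (3 / 2) * hc
      rw [e] at h5
      exact h5
    · intro s hs
      have e : (3 * sinh s ^ 2 -
      (-exp (-s) * sinh s ^ 3 + exp (-s) * (3 * sinh s ^ 2 * cosh s)) : ℝ) =
          sinh s ^ 2 * (3 - exp (-s) * (3 * cosh s - sinh s)) := by ring
      rw [e]
      apply mul_nonneg (sq_nonneg _)
      have h6 : exp (-s) * (3 * cosh s - sinh s) = 1 + 2 * exp (-s) ^ 2 := by
        rw [sinh_eq, cosh_eq]
        have h2 : exp s * exp (-s) = 1 := by rw [← exp_add]; simp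
        linear_combination h2
      rw [h6]
      have h7 : exp (-s) ≤ 1 := by
        rw [exp_le_one_iff]; linarith
      have h8 := exp_pos (-s)
      nlinarith
  linarith [key t ht]

/-- `h ≥ 0`: `γ (c - 1) ≤ Q`, multiplied by `sinh t`. -/
theorem gamma_mul_le_Q {t : ℝ} (ht : 0 ≤ t) :
    (sinh t * cosh t - t) / 2 * exp (-t) ≤ t * cosh t - sinh t := by
  have key : ∀ t : ℝ, 0 ≤ t →
      0 ≤ (t * cosh t - sinh t) - (sinh t * cosh t - t) / 2 * exp (-t) := by
    apply nonneg_of_deriv (f' := fun t => t * sinh t -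
      (sinh t ^ 2 * exp (-t) - (sinh t * cosh t - t) / 2 * exp (-t)))
    · simp
    · intro s _
      have h0 := ((hasDerivAt_id s).mul (hasDerivAt_cosh s)).sub (hasDerivAt_sinh s)
      have e0 : (1 * cosh s + id s * sinh s - cosh s : ℝ) = s * sinh s := by simp
      rw [e0] at h0
      have h1 : HasDerivAt (fun t : ℝ => sinh t * cosh t) (cosh s * cosh s + sinh s * sinh s) s :=
        (hasDerivAt_sinh s).mul (hasDerivAt_cosh s)
      have h2 : HasDerivAt (fun t : ℝ => (sinh t * cosh t - t) / 2)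
          ((cosh s * cosh s + sinh s * sinh s - 1) / 2) s :=
        (h1.sub (hasDerivAt_id s)).div_const 2
      have h3 : HasDerivAt (fun t : ℝ => exp (-t)) (exp (-s) * (-1)) s :=
        (hasDerivAt_neg s).exp
      have h5 := h0.sub (h2.mul h3)
      have hc := cosh_sq s
      have e : (s * sinh s - ((cosh s * cosh s + sinh s * sinh s - 1) / 2 * exp (-s) +
          (sinh s * cosh s - s) / 2 * (exp (-s) * (-1))) : ℝ) =
          s * sinh s - (sinh s ^ 2 * exp (-s) - (sinh s * cosh s - s) / 2 * exp (-s)) := by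
        linear_combination (-(1 / 2) * exp (-s)) * hc
      rw [e] at h5
      exact h5
    · intro s hs
      have h1 := sinh_mul_exp_neg_le hs
      have h2 := le_sinh_mul_cosh hs
      have h3 := sinh_nonneg_iff.mpr hs
      have h4 := exp_pos (-s)
      have h5 : 0 ≤ sinh s * (s - sinh s * exp (-s)) := mul_nonneg h3 (by linarith)
      have h6 : 0 ≤ (sinh s * cosh s - s) / 2 * exp (-s) := mul_nonneg (by linarith) h4.le
      nlinarith
  linarith [key t ht]

/-- `2 Q c ≥ Q'`: `3 sinh t cosh t ≤ t (2 cosh² t + 1)`. -/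
theorem three_sinh_cosh_le {t : ℝ} (ht : 0 ≤ t) :
    3 * (sinh t * cosh t) ≤ t * (2 * cosh t ^ 2 + 1) := by
  have key : ∀ t : ℝ, 0 ≤ t → 0 ≤ t * (2 * cosh t ^ 2 + 1) - 3 * (sinh t * cosh t) := by
    apply nonneg_of_deriv (f' := fun t => 4 * sinh t * (t * cosh t - sinh t))
    · simp
    · intro s _
      have h1 : HasDerivAt (fun t : ℝ => sinh t * cosh t) (cosh s * cosh s + sinh s * sinh s) s :=
        (hasDerivAt_sinh s).mul (hasDerivAt_cosh s)
      have h2 : HasDerivAt (fun t : ℝ => 2 * cosh t ^ 2 + 1) (2 * (2 * cosh s * sinh s)) s := by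
        have := (((hasDerivAt_cosh s).pow 2).const_mul 2).add_const 1
        simpa using this
      have h3 : HasDerivAt (fun t : ℝ => t * (2 * cosh t ^ 2 + 1))
          (1 * (2 * cosh s ^ 2 + 1) + s * (2 * (2 * cosh s * sinh s))) s :=
        (hasDerivAt_id s).mul h2
      have h5 := h3.sub (h1.const_mul 3)
      have hc := cosh_sq s
      have e : (1 * (2 * cosh s ^ 2 + 1) + s * (2 * (2 * cosh s * sinh s)) -
          3 * (cosh s * cosh s + sinh s * sinh s) : ℝ) = 4 * sinh s * (s * cosh s - sinh s) := by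
        linear_combination (-1) * hc
      rw [e] at h5
      exact h5
    · intro s hs
      have h1 := sinh_le_mul_cosh hs
      have h3 := sinh_nonneg_iff.mpr hs
      exact mul_nonneg (by linarith) (by linarith)
  linarith [key t ht]

/-- Lazarević: `t * y ≤ sinh t` when `y ^ 3 = cosh t`. -/
theorem lazarevic {t : ℝ} (ht : 0 ≤ t) : t * cosh t ^ (1 / 3 : ℝ) ≤ sinh t := by
  have hcube : ∀ s : ℝ, (cosh s ^ (1 / 3 : ℝ)) ^ 3 = cosh s := by
    intro s
    rw [← rpow_natCast, ← rpow_mul (cosh_pos s).le]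
    norm_num
  have hone : ∀ s : ℝ, 1 ≤ cosh s ^ (1 / 3 : ℝ) := by
    intro s
    exact one_le_rpow (one_le_cosh s) (by norm_num)
  -- work with `g s = sinh s / y - s`
  have key : ∀ t : ℝ, 0 ≤ t → 0 ≤ sinh t * cosh t ^ (-(1 / 3) : ℝ) - t := by
    apply nonneg_of_deriv (f' := fun s => cosh s * cosh s ^ (-(1 / 3) : ℝ) +
      sinh s * (sinh s * (-(1 / 3)) * cosh s ^ (-(1 / 3) - 1 : ℝ)) - 1)
    · simp
    · intro s _
      have h1 : HasDerivAt (fun t : ℝ => cosh t ^ (-(1 / 3) : ℝ))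
          (sinh s * (-(1 / 3)) * cosh s ^ (-(1 / 3) - 1 : ℝ)) s :=
        (hasDerivAt_cosh s).rpow_const (Or.inl (cosh_pos s).ne')
      exact ((hasDerivAt_sinh s).mul h1).sub (hasDerivAt_id s)
    · intro s hs
      have hy := hone s
      have hy3 := hcube s
      have hypos : 0 < cosh s ^ (1 / 3 : ℝ) := by linarith
      set y : ℝ := cosh s ^ (1 / 3 : ℝ) with hydef
      have h1 : cosh s ^ (-(1 / 3) : ℝ) = y⁻¹ := by
        rw [rpow_neg (cosh_pos s).le]
      have h2 : cosh s ^ (-(1 / 3) - 1 : ℝ) = y⁻¹ * (y ^ 3)⁻¹ := by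
        rw [rpow_sub (cosh_pos s), rpow_one, h1, hy3]
        rfl
      have hsq : sinh s ^ 2 = y ^ 6 - 1 := by
        have := cosh_sq s
        rw [← hy3] at this
        nlinarith
      rw [h1, h2, ← hy3]
      have e : y ^ 3 * y⁻¹ + sinh s * (sinh s * (-(1 / 3)) * (y⁻¹ * (y ^ 3)⁻¹)) - 1 =
          (y ^ 2 - 1) ^ 2 * (2 * y ^ 2 + 1) / (3 * y ^ 4) := by
        have : sinh s * (sinh s * (-(1 / 3)) * (y⁻¹ * (y ^ 3)⁻¹)) =
          sinh s ^ 2 * (-(1 / 3)) * (y⁻¹ * (y ^ 3)⁻¹) := by ring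
        rw [this, hsq]
        field_simp
        ring
      rw [e]
      positivity
  have h := key t ht
  have hy := hone t
  have hypos : 0 < cosh t ^ (1 / 3 : ℝ) := by linarith
  have h1 : cosh t ^ (-(1 / 3) : ℝ) = (cosh t ^ (1 / 3 : ℝ))⁻¹ := by
    rw [rpow_neg (cosh_pos t).le]
  rw [h1] at h
  have h2 : t ≤ sinh t * (cosh t ^ (1 / 3 : ℝ))⁻¹ := by linarith
  calc t * cosh t ^ (1 / 3 : ℝ) ≤ sinh t * (cosh t ^ (1 / 3 : ℝ))⁻¹ * cosh t ^ (1 / 3 : ℝ) :=
        mul_le_mul_of_nonneg_right h2 hypos.le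
    _ = sinh t := by field_simp

/-- The reduced form of the pointwise one-variable inequality. -/
theorem V_nonneg {t : ℝ} (ht : 0 ≤ t) :
    0 ≤ sinh t ^ 2 * (cosh t + 2) - sinh t * (cosh t - 1) * t - (2 * cosh t + 1) * t ^ 2 := by
  have hcube : (cosh t ^ (1 / 3 : ℝ)) ^ 3 = cosh t := by
    rw [← rpow_natCast, ← rpow_mul (cosh_pos t).le]
    norm_num
  have hone : 1 ≤ cosh t ^ (1 / 3 : ℝ) := one_le_rpow (one_le_cosh t) (by norm_num)
  have hL := lazarevic ht
  set y : ℝ := cosh t ^ (1 / 3 : ℝ) with hydef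
  have hs := sinh_nonneg_iff.mpr ht
  rw [← hcube]
  -- `t ≤ sinh t / y`
  have hypos : 0 < y := by linarith
  have h1 : 0 ≤ y ^ 3 - 1 := by nlinarith [sq_nonneg (y - 1), sq_nonneg y]
  have ha : sinh t * (y ^ 3 - 1) * t * y ≤ sinh t * (y ^ 3 - 1) * sinh t := by
    have : 0 ≤ sinh t * (y ^ 3 - 1) := mul_nonneg hs h1
    nlinarith
  have hb : (t * y) ^ 2 ≤ sinh t ^ 2 := by
    have : 0 ≤ t * y := mul_nonneg ht hypos.le
    nlinarith
  have hc : (2 * y ^ 3 + 1) * (t * y) ^ 2 ≤ (2 * y ^ 3 + 1) * sinh t ^ 2 :=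
    mul_le_mul_of_nonneg_left hb (by positivity)
  have hd : sinh t * (y ^ 3 - 1) * t * y * y ≤ sinh t * (y ^ 3 - 1) * sinh t * y :=
    mul_le_mul_of_nonneg_right ha hypos.le
  have he : 0 ≤ y ^ 2 * (sinh t ^ 2 * (y ^ 3 + 2) - sinh t * (y ^ 3 - 1) * t -
      (2 * y ^ 3 + 1) * t ^ 2) := by
    have hf : 0 ≤ sinh t ^ 2 * ((y - 1) * (y ^ 2 - 1) ^ 2) :=
      mul_nonneg (sq_nonneg _) (mul_nonneg (by linarith) (sq_nonneg _))
    nlinarith
  exact nonneg_of_mul_nonneg_right he (by positivity)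

/-- The pointwise one-variable inequality: with `P = t cosh t - sinh t`, `G = sinh t cosh t - t`,
`0 ≤ G (2 cosh t - 1) P + G² - 2 sinh³ t P`. -/
theorem W_nonneg {t : ℝ} (ht : 0 ≤ t) :
    0 ≤ (sinh t * cosh t - t) * (2 * cosh t - 1) * (t * cosh t - sinh t) +
      (sinh t * cosh t - t) ^ 2 - 2 * sinh t ^ 3 * (t * cosh t - sinh t) := by
  have hV := V_nonneg ht
  have h1 := one_le_cosh t
  have hc := cosh_sq t
  have e : (sinh t * cosh t - t) * (2 * cosh t - 1) * (t * cosh t - sinh t) +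
      (sinh t * cosh t - t) ^ 2 - 2 * sinh t ^ 3 * (t * cosh t - sinh t) =
      (cosh t - 1) * (sinh t ^ 2 * (cosh t + 2) - sinh t * (cosh t - 1) * t -
        (2 * cosh t + 1) * t ^ 2) := by
    have h2 : sinh t ^ 2 = cosh t ^ 2 - 1 := by linarith
    have h3 : sinh t ^ 3 = sinh t * (cosh t ^ 2 - 1) := by
      rw [pow_succ, h2]; ring
    have h4 : 2 * sinh t ^ 3 * (t * cosh t - sinh t) =
      2 * t * cosh t * (sinh t * (cosh t ^ 2 - 1)) - 2 * (cosh t ^ 2 - 1) * sinh t ^ 2 := by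
      rw [h3]; ring
    rw [h4]
    ring
  rw [e]
  exact mul_nonneg (by linarith) hV

end PoolIM64
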