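import Pool.Agent.IM64.A

/-!
# The comparison part (module F)

Abstract one-variable part of the proof.  `t = log (1/ρ) > 0`, `cc = coth t`, `ss = 1 / sinh t`,
`QQ = t coth t - 1`, `gg = (sinh t cosh t - t) / 2`.
-/

namespace PoolIM64

open Real Filter Topology

noncomputable def cc (t : ℝ) : ℝ := cosh t / sinh t
noncomputable def ss (t : ℝ) : ℝ := 1 / sinh t
noncomputable def QQ (t : ℝ) : ℝ := t * cc t - 1
noncomputable def gg (t : ℝ) : ℝ := (sinh t * cosh t - t) / 2

variable {t : ℝ}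

theorem sinh_pos' (ht : 0 < t) : 0 < sinh t := sinh_pos_iff.mpr ht

theorem ss_pos (ht : 0 < t) : 0 < ss t := by
  unfold ss; have := sinh_pos' ht; positivity

theorem cc_gt_one (ht : 0 < t) : 1 < cc t := by
  unfold cc
  rw [one_lt_div (sinh_pos' ht)]
  exact sinh_lt_cosh t

theorem cc_sq (ht : 0 < t) : cc t ^ 2 = 1 + ss t ^ 2 := by
  unfold cc ss
  have h := (sinh_pos' ht).ne'
  have h2 := cosh_sq t
  field_simp
  linarith

theorem gg_pos (ht : 0 < t) : 0 < gg t := by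
  unfold gg; have := lt_sinh_mul_cosh ht; linarith

theorem QQ_pos (ht : 0 < t) : 0 < QQ t := by
  unfold QQ cc
  have h := sinh_pos' ht
  have h1 := sinh_lt_mul_cosh ht
  have : 1 < t * (cosh t / sinh t) := by
    rw [mul_div_assoc', one_lt_div h]; exact h1
  linarith

theorem hasDerivAt_cc (ht : 0 < t) : HasDerivAt cc (-(ss t ^ 2)) t := by
  have h := (sinh_pos' ht).ne'
  have h1 := (hasDerivAt_cosh t).div (hasDerivAt_sinh t) h
  have e : (sinh t * sinh t - cosh t * cosh t) / sinh t ^ 2 = -(ss t ^ 2) := by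
    unfold ss
    have h2 := cosh_sq t
    field_simp
    linarith
  rw [e] at h1
  exact h1

theorem hasDerivAt_ss (ht : 0 < t) : HasDerivAt ss (-(cc t * ss t)) t := by
  have h := (sinh_pos' ht).ne'
  have h1 := (hasDerivAt_sinh t).inv h
  have e : -cosh t / sinh t ^ 2 = -(cc t * ss t) := by
    unfold cc ss
    field_simp
  rw [e] at h1
  have hfun : ss = sinh⁻¹ := by ext t; unfold ss; simp
  rw [← hfun] at h1
  exact h1

theorem hasDerivAt_gg (t : ℝ) : HasDerivAt gg (sinh t ^ 2) t := by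
  have h1 : HasDerivAt (fun t : ℝ => sinh t * cosh t) (cosh t * cosh t + sinh t * sinh t) t :=
    (hasDerivAt_sinh t).mul (hasDerivAt_cosh t)
  have h2 := (h1.sub (hasDerivAt_id t)).div_const 2
  have e : (cosh t * cosh t + sinh t * sinh t - 1) / 2 = sinh t ^ 2 := by
    have := cosh_sq t
    nlinarith
  rw [e] at h2
  exact h2

theorem hasDerivAt_QQ (ht : 0 < t) : HasDerivAt QQ (2 * gg t * ss t ^ 2) t := by
  have h := (sinh_pos' ht).ne'
  have h1 := ((hasDerivAt_id t).mul (hasDerivAt_cc ht)).sub_const 1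
  have e : (1 * cc t + id t * -(ss t ^ 2) : ℝ) = 2 * gg t * ss t ^ 2 := by
    unfold cc ss gg
    simp only [id]
    field_simp
    ring
  rw [e] at h1
  exact h1

/-- `Q + 2 γ c = sinh²`. -/
theorem QQ_add (ht : 0 < t) : QQ t + 2 * gg t * cc t = sinh t ^ 2 := by
  unfold QQ gg cc
  have h := (sinh_pos' ht).ne'
  have h2 := cosh_sq t
  field_simp
  linear_combination (sinh t) * h2

theorem ss_sq_mul (ht : 0 < t) : ss t ^ 2 * sinh t ^ 2 = 1 := by
  unfold ss
  have h := (sinh_pos' ht).ne'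
  field_simp

/-- `(c / Q)' = - 1 / Q²` -/
theorem hasDerivAt_cc_div_QQ (ht : 0 < t) :
    HasDerivAt (fun t => cc t / QQ t) (-(1 / QQ t ^ 2)) t := by
  have hQ := (QQ_pos ht).ne'
  have h1 := (hasDerivAt_cc ht).div (hasDerivAt_QQ ht) hQ
  have e : (-(ss t ^ 2) * QQ t - cc t * (2 * gg t * ss t ^ 2)) / QQ t ^ 2 = -(1 / QQ t ^ 2) := by
    have h2 := QQ_add ht
    have h3 := ss_sq_mul ht
    have : -(ss t ^ 2) * QQ t - cc t * (2 * gg t * ss t ^ 2) = -1 := by
      linear_combination (-(ss t ^ 2)) * h2 - h3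
    rw [this]
    ring
  rw [e] at h1
  exact h1

/-- A function on `(0, ∞)` with nonnegative derivative and limit `l` at infinity is `≤ l`. -/
theorem le_of_monotone_limit {f f' : ℝ → ℝ} {l : ℝ}
    (hd : ∀ t : ℝ, 0 < t → HasDerivAt f (f' t) t) (hp : ∀ t : ℝ, 0 < t → 0 ≤ f' t)
    (hlim : Tendsto f atTop (𝓝 l)) : ∀ t : ℝ, 0 < t → f t ≤ l := by
  intro t ht
  have hmono : MonotoneOn f (Set.Ioi (0 : ℝ)) := by
    apply monotoneOn_of_deriv_nonneg (convex_Ioi 0)
    · intro s hs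
      exact (hd s hs).continuousAt.continuousWithinAt
    · intro s hs
      rw [interior_Ioi] at hs
      exact (hd s hs).differentiableAt.differentiableWithinAt
    · intro s hs
      rw [interior_Ioi] at hs
      rw [(hd s hs).deriv]
      exact hp s hs
  apply ge_of_tendsto hlim
  filter_upwards [eventually_ge_atTop t] with s hs
  exact hmono ht (lt_of_lt_of_le ht hs) hs

theorem tendsto_ss : Tendsto ss atTop (𝓝 0) := by
  have h : Tendsto (fun t : ℝ => (t : ℝ)⁻¹) atTop (𝓝 0) := tendsto_inv_atTop_zero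
  refine squeeze_zero' ?_ ?_ h
  · filter_upwards [eventually_gt_atTop 0] with t ht
    exact (ss_pos ht).le
  · filter_upwards [eventually_gt_atTop 0] with t ht
    unfold ss
    rw [one_div]
    exact inv_anti₀ ht (self_le_sinh_iff.mpr ht.le)

theorem tendsto_cc : Tendsto cc atTop (𝓝 1) := by
  have h1 : Tendsto (fun t => √(1 + ss t ^ 2)) atTop (𝓝 1) := by
    have : Tendsto (fun t => √(1 + ss t ^ 2)) atTop (𝓝 (√(1 + 0 ^ 2))) :=
      ((tendsto_const_nhds.add (tendsto_ss.pow 2))).sqrt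
    simpa using this
  refine h1.congr' ?_
  filter_upwards [eventually_gt_atTop 0] with t ht
  rw [← cc_sq ht, sqrt_sq]
  linarith [cc_gt_one ht]

theorem tendsto_QQ : Tendsto QQ atTop atTop := by
  have h1 : Tendsto (fun t : ℝ => t - 1) atTop atTop := tendsto_atTop_add_const_right _ (-1) tendsto_id
  refine tendsto_atTop_mono' atTop ?_ h1
  filter_upwards [eventually_gt_atTop 0] with t ht
  unfold QQ
  have := cc_gt_one ht
  nlinarith

/-- **F1**: first order comparison. -/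
theorem F1 {M M' : ℝ → ℝ} (hM : ∀ t : ℝ, 0 < t → HasDerivAt M (M' t) t)
    (hineq : ∀ t : ℝ, 0 < t → 2 * (2 * gg t * ss t ^ 2 / QQ t) * M t - 1 ≤ M' t)
    (hlim : Tendsto (fun t => M t / QQ t ^ 2) atTop (𝓝 0)) :
    ∀ t : ℝ, 0 < t → M t ≤ cc t * QQ t := by
  intro t ht
  have key : ∀ s : ℝ, 0 < s → M s / QQ s ^ 2 - cc s / QQ s ≤ 0 := by
    apply le_of_monotone_limit (f' := fun s =>
      (M' s * QQ s ^ 2 - M s * (2 * QQ s * (2 * gg s * ss s ^ 2))) / (QQ s ^ 2) ^ 2 -
        (-(1 / QQ s ^ 2)))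
    · intro s hs
      have hQ := (QQ_pos hs).ne'
      have h1 : HasDerivAt (fun t => QQ t ^ 2) (2 * QQ s * (2 * gg s * ss s ^ 2)) s := by
        have := (hasDerivAt_QQ hs).pow 2
        norm_num at this
        exact this
      exact ((hM s hs).div h1 (pow_ne_zero 2 hQ)).sub (hasDerivAt_cc_div_QQ hs)
    · intro s hs
      have hQ := QQ_pos hs
      have h1 := hineq s hs
      have e : (M' s * QQ s ^ 2 - M s * (2 * QQ s * (2 * gg s * ss s ^ 2))) / (QQ s ^ 2) ^ 2 -
        (-(1 / QQ s ^ 2)) = (M' s - (2 * (2 * gg s * ss s ^ 2 / QQ s) * M s - 1)) / QQ s ^ 2 := by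
        field_simp
        ring
      rw [e]
      exact div_nonneg (by linarith) (by positivity)
    · have h1 : Tendsto (fun s => cc s / QQ s) atTop (𝓝 0) :=
        tendsto_cc.div_atTop tendsto_QQ
      simpa using hlim.sub h1
  have h := key t ht
  have hQ := QQ_pos ht
  have h2 : M t / QQ t ^ 2 ≤ cc t / QQ t := by linarith
  rw [div_le_div_iff₀ (by positivity) hQ] at h2
  have h3 : M t * QQ t ≤ (cc t * QQ t) * QQ t := by
    calc M t * QQ t ≤ cc t * QQ t ^ 2 := h2
      _ = _ := by ring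
  exact le_of_mul_le_mul_right h3 hQ

/-- the comparison function `G = (c² + c) / 2` and its derivatives -/
theorem hasDerivAt_G1 (ht : 0 < t) : HasDerivAt (fun t => (cc t ^ 2 + cc t) / 2)
    (-(ss t ^ 2) * (2 * cc t + 1) / 2) t := by
  have h1 : HasDerivAt (fun t => cc t ^ 2) (2 * cc t * (-(ss t ^ 2))) t := by
    have := (hasDerivAt_cc ht).pow 2
    norm_num at this
    have e : -(2 * cc t * ss t ^ 2) = 2 * cc t * (-(ss t ^ 2)) := by ring
    rw [e] at this
    exact this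
  have h2 := (h1.add (hasDerivAt_cc ht)).div_const 2
  have e : (2 * cc t * (-(ss t ^ 2)) + -(ss t ^ 2)) / 2 = -(ss t ^ 2) * (2 * cc t + 1) / 2 := by ring
  rw [e] at h2
  exact h2

theorem hasDerivAt_G2 (ht : 0 < t) : HasDerivAt (fun t => -(ss t ^ 2) * (2 * cc t + 1) / 2)
    (ss t ^ 2 * (3 * cc t ^ 2 + cc t - 1)) t := by
  have h1 : HasDerivAt (fun t => ss t ^ 2) (2 * ss t * (-(cc t * ss t))) t := by
    have := (hasDerivAt_ss ht).pow 2
    norm_num at this
    have e : -(2 * ss t * (cc t * ss t)) = 2 * ss t * (-(cc t * ss t)) := by ring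
    rw [e] at this
    exact this
  have h3 : HasDerivAt (fun t => 2 * cc t + 1) (2 * (-(ss t ^ 2))) t :=
    ((hasDerivAt_cc ht).const_mul 2).add_const 1
  have h2 : HasDerivAt (fun t => -(ss t ^ 2) * (2 * cc t + 1) / 2)
      ((-(2 * ss t * (-(cc t * ss t))) * (2 * cc t + 1) + -(ss t ^ 2) * (2 * (-(ss t ^ 2)))) / 2) t :=
    (h1.neg.mul h3).div_const 2
  have e : (-(2 * ss t * (-(cc t * ss t))) * (2 * cc t + 1) + -(ss t ^ 2) * (2 * (-(ss t ^ 2)))) / 2
      = ss t ^ 2 * (3 * cc t ^ 2 + cc t - 1) := by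
    have := cc_sq ht
    linear_combination (-(ss t ^ 2)) * this
  rw [e] at h2
  exact h2

/-- **F2**: second order comparison, `J ≤ (c² + c) / 2`. -/
theorem F2 {J J' J'' : ℝ → ℝ} (hJ : ∀ t : ℝ, 0 < t → HasDerivAt J (J' t) t)
    (hJ' : ∀ t : ℝ, 0 < t → HasDerivAt J' (J'' t) t)
    (hpos : ∀ t : ℝ, 0 < t → 0 ≤ J t)
    (hineq : ∀ t : ℝ, 0 < t → J'' t ≤ 3 * ss t ^ 2 * J t)
    (hlim : Tendsto J atTop (𝓝 1)) (hlim' : Tendsto J' atTop (𝓝 0)) :
    ∀ t : ℝ, 0 < t → J t ≤ (cc t ^ 2 + cc t) / 2 := by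
  have hGpos : ∀ t : ℝ, 0 < t → 0 < (cc t ^ 2 + cc t) / 2 := by
    intro t ht
    have := cc_gt_one ht
    positivity
  have hW : ∀ t : ℝ, 0 < t →
      J t * (-(ss t ^ 2) * (2 * cc t + 1) / 2) - J' t * ((cc t ^ 2 + cc t) / 2) ≤ 0 := by
    apply le_of_monotone_limit (f' := fun t =>
      (J' t * (-(ss t ^ 2) * (2 * cc t + 1) / 2) + J t * (ss t ^ 2 * (3 * cc t ^ 2 + cc t - 1))) -
      (J'' t * ((cc t ^ 2 + cc t) / 2) + J' t * (-(ss t ^ 2) * (2 * cc t + 1) / 2)))
    · intro s hs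
      exact ((hJ s hs).mul (hasDerivAt_G2 hs)).sub ((hJ' s hs).mul (hasDerivAt_G1 hs))
    · intro s hs
      have h1 := hineq s hs
      have h2 := hpos s hs
      have h3 := hGpos s hs
      have h4 := cc_gt_one hs
      have h5 : J'' s * ((cc s ^ 2 + cc s) / 2) ≤ 3 * ss s ^ 2 * J s * ((cc s ^ 2 + cc s) / 2) :=
        mul_le_mul_of_nonneg_right h1 h3.le
      have h6 : 0 ≤ J s * ss s ^ 2 * ((cc s - 1) * (3 / 2 * cc s + 1)) := by
        apply mul_nonneg (mul_nonneg h2 (sq_nonneg _))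
        apply mul_nonneg <;> nlinarith
      nlinarith
    · have h1 : Tendsto (fun t => J t * (-(ss t ^ 2) * (2 * cc t + 1) / 2) -
          J' t * ((cc t ^ 2 + cc t) / 2)) atTop
          (𝓝 (1 * (-(0 ^ 2) * (2 * 1 + 1) / 2) - 0 * ((1 ^ 2 + 1) / 2))) := by
        refine (hlim.mul ?_).sub (hlim'.mul ?_)
        · exact (((tendsto_ss.pow 2).neg).mul ((tendsto_cc.const_mul 2).add_const 1)).div_const 2
        · exact ((tendsto_cc.pow 2).add tendsto_cc).div_const 2
      simpa using h1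
  intro t ht
  have key : ∀ s : ℝ, 0 < s → J s / ((cc s ^ 2 + cc s) / 2) ≤ 1 := by
    apply le_of_monotone_limit (f' := fun s =>
      (J' s * ((cc s ^ 2 + cc s) / 2) - J s * (-(ss s ^ 2) * (2 * cc s + 1) / 2)) /
        ((cc s ^ 2 + cc s) / 2) ^ 2)
    · intro s hs
      exact (hJ s hs).div (hasDerivAt_G1 hs) (hGpos s hs).ne'
    · intro s hs
      have h1 := hW s hs
      have h2 := hGpos s hs
      exact div_nonneg (by linarith) (by positivity)
    · have h1 : Tendsto (fun t => J t / ((cc t ^ 2 + cc t) / 2)) atTop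
          (𝓝 (1 / ((1 ^ 2 + 1) / 2))) :=
        hlim.div (((tendsto_cc.pow 2).add tendsto_cc).div_const 2) (by norm_num)
      norm_num at h1
      exact h1
  have h := key t ht
  rwa [div_le_one (hGpos t ht)] at h

/-- `Q ≤ γ c` -/
theorem QQ_le (ht : 0 < t) : QQ t ≤ gg t * cc t := by
  -- `3 Q ≤ sinh²`
  have key : ∀ t : ℝ, 0 ≤ t → 0 ≤ sinh t ^ 3 - 3 * (t * cosh t - sinh t) := by
    apply nonneg_of_deriv (f' := fun t => 3 * sinh t * (sinh t * cosh t - t))
    · simp
    · intro s _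
      have h0 := (((hasDerivAt_id s).mul (hasDerivAt_cosh s)).sub (hasDerivAt_sinh s)).const_mul 3
      have h4 : HasDerivAt (fun t : ℝ => sinh t ^ 3) (3 * sinh s ^ 2 * cosh s) s := by
        have := (hasDerivAt_sinh s).pow 3
        norm_num at this
        exact this
      have h5 := h4.sub h0
      have e : (3 * sinh s ^ 2 * cosh s - 3 * (1 * cosh s + id s * sinh s - cosh s) : ℝ) =
          3 * sinh s * (sinh s * cosh s - s) := by
        simp only [id]
        ring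
      rw [e] at h5
      exact h5
    · intro s hs
      have h1 := le_sinh_mul_cosh hs
      have h3 := sinh_nonneg_iff.mpr hs
      exact mul_nonneg (by linarith) (by linarith)
  have h1 := key t ht.le
  have h2 := QQ_add ht
  have h3 := sinh_pos' ht
  have h4 : QQ t * sinh t = t * cosh t - sinh t := by
    unfold QQ cc
    field_simp
  have h5 : 3 * QQ t ≤ sinh t ^ 2 := by
    have : 3 * QQ t * sinh t ≤ sinh t ^ 2 * sinh t := by nlinarith
    exact le_of_mul_le_mul_right this h3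
  linarith

/-- `c - Q / γ ≤ 1 / c`, i.e. `γ (c² - 1) ≤ Q c`. -/
theorem gg_mul_le (ht : 0 < t) : gg t * (cc t ^ 2 - 1) ≤ QQ t * cc t := by
  have h1 := three_sinh_cosh_le ht.le
  have h3 := sinh_pos' ht
  rw [cc_sq ht]
  unfold gg ss QQ cc
  have e1 : (sinh t * cosh t - t) / 2 * (1 + (1 / sinh t) ^ 2 - 1) =
    (sinh t * cosh t - t) / 2 / sinh t ^ 2 := by field_simp; ring
  have e2 : (t * (cosh t / sinh t) - 1) * (cosh t / sinh t) =
    (t * cosh t ^ 2 - sinh t * cosh t) / sinh t ^ 2 := by field_simp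
  rw [e1, e2]
  apply div_le_div_of_nonneg_right _ (by positivity)
  linarith

/-- **F3**: from `(Q - γ c) J + γ b ≤ c Q` and `J ≤ (c² + c) / 2` to `b ≤ c² + (c - 1) / 2`. -/
theorem F3 {J b : ℝ} (ht : 0 < t) (h1 : (QQ t - gg t * cc t) * J + gg t * b ≤ cc t * QQ t)
    (h2 : J ≤ (cc t ^ 2 + cc t) / 2) : b ≤ cc t ^ 2 + (cc t - 1) / 2 := by
  have hg := gg_pos ht
  have hc := cc_gt_one ht
  have hQ := QQ_le ht
  have h3 := gg_mul_le ht
  have h4 : (gg t * cc t - QQ t) * J ≤ (gg t * cc t - QQ t) * ((cc t ^ 2 + cc t) / 2) :=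
    mul_le_mul_of_nonneg_left h2 (by linarith)
  -- `gg b ≤ cc Q + (gg c - Q) (c² + c) / 2`
  have h5 : gg t * b ≤ cc t * QQ t + (gg t * cc t - QQ t) * ((cc t ^ 2 + cc t) / 2) := by
    linarith
  have h6 : cc t * QQ t + (gg t * cc t - QQ t) * ((cc t ^ 2 + cc t) / 2) ≤
      gg t * (cc t ^ 2 + (cc t - 1) / 2) := by
    -- difference = (c - 1) (gg (c² - 1)... ) / 2
    have h7 : gg t * (cc t ^ 2 + (cc t - 1) / 2) -
        (cc t * QQ t + (gg t * cc t - QQ t) * ((cc t ^ 2 + cc t) / 2)) =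
        (cc t - 1) / 2 * (QQ t * cc t - gg t * (cc t ^ 2 - 1)) := by ring
    have h8 : 0 ≤ (cc t - 1) / 2 * (QQ t * cc t - gg t * (cc t ^ 2 - 1)) :=
      mul_nonneg (by linarith) (by linarith)
    linarith
  have h9 : gg t * b ≤ gg t * (cc t ^ 2 + (cc t - 1) / 2) := h5.trans h6
  exact le_of_mul_le_mul_left h9 hg

end PoolIM64
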