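import Pool.Agent.IM64.A

/-!
# The final inequality in `n` (with `m = n - 1`)
-/

namespace PoolIM64

open Real

/-- Padé bound for the logarithm. -/
theorem log_pade {u : ℝ} (hu : 0 ≤ u) : log (1 + u) ≤ u * (6 + u) / (6 + 4 * u) := by
  have key : ∀ t : ℝ, 0 ≤ t → 0 ≤ t * (6 + t) / (6 + 4 * t) - log (1 + t) := by
    apply nonneg_of_deriv (f' := fun t =>
      ((1 * (6 + t) + t * 1) * (6 + 4 * t) - t * (6 + t) * 4) / (6 + 4 * t) ^ 2 - 1 / (1 + t))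
    · simp
    · intro s hs
      have hne : (6 + 4 * s : ℝ) ≠ 0 := by positivity
      have hne2 : (1 + s : ℝ) ≠ 0 := by positivity
      have h1 : HasDerivAt (fun t : ℝ => t * (6 + t)) (1 * (6 + s) + s * 1) s :=
        (hasDerivAt_id s).mul ((hasDerivAt_id s).const_add 6)
      have h2 : HasDerivAt (fun t : ℝ => 6 + 4 * t) 4 s := by
        have := ((hasDerivAt_id s).const_mul 4).const_add 6
        simpa using this
      have h3 : HasDerivAt (fun t : ℝ => log (1 + t)) (1 / (1 + s)) s :=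
        ((hasDerivAt_id s).const_add 1).log hne2
      exact (h1.div h2 hne).sub h3
    · intro s hs
      have h1 : (0 : ℝ) < 6 + 4 * s := by positivity
      have h2 : (0 : ℝ) < 1 + s := by positivity
      rw [sub_nonneg, div_le_div_iff₀ h2 (by positivity)]
      nlinarith [pow_nonneg hs 3]
  linarith [key u hu]

theorem exp_three_le : exp 3 ≤ 20.0856 := by
  have h1 : exp 3 = exp 1 ^ 3 := by
    rw [← exp_nat_mul]; norm_num
  rw [h1]
  have h2 := exp_one_lt_d9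
  have h3 := exp_pos 1
  calc exp 1 ^ 3 ≤ 2.7182818286 ^ 3 := pow_le_pow_left₀ h3.le h2.le 3
    _ ≤ 20.0856 := by norm_num

/-- `((m + 6) / m) ^ m ≤ exp (6 (m + 1) / (m + 4))`. -/
theorem pow_le_exp (m : ℕ) (hm : 1 ≤ m) :
    ((m + 6 : ℝ) / m) ^ m ≤ exp (6 * (m + 1) / (m + 4)) := by
  have hm' : (1 : ℝ) ≤ m := by exact_mod_cast hm
  have hpos : (0 : ℝ) < m := by linarith
  have h1 := log_pade (u := 6 / (m : ℝ)) (by positivity)
  have h2 : (1 : ℝ) + 6 / m = (m + 6) / m := by field_simp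
  rw [h2] at h1
  have h3 : (6 / (m : ℝ)) * (6 + 6 / m) / (6 + 4 * (6 / m)) = 6 * (m + 1) / (m * (m + 4)) := by
    field_simp
  rw [h3] at h1
  have hb : (0 : ℝ) < (m + 6) / m := by positivity
  have h4 : (m : ℝ) * log ((m + 6) / m) ≤ 6 * (m + 1) / (m + 4) := by
    have := mul_le_mul_of_nonneg_left h1 hpos.le
    have e : (m : ℝ) * (6 * (m + 1) / (m * (m + 4))) = 6 * (m + 1) / (m + 4) := by
      field_simp
    rw [e] at this
    exact this
  calc ((m + 6 : ℝ) / m) ^ m = exp (m * log ((m + 6) / m)) := by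
        rw [exp_nat_mul, exp_log hb]
    _ ≤ _ := exp_le_exp.mpr h4

/-- Squared form of the final inequality for `m ≥ 10`. -/
theorem final_sq_large (m : ℕ) (hm : 10 ≤ m) :
    ((2 * m + 3 : ℝ) * (m + 6) ^ 2 / 54) ^ 2 * ((m + 6 : ℝ) / m) ^ m ≤
      (3 / 4 * (m + 1) * (m + 2) ^ 2) ^ 2 := by
  have hm' : (10 : ℝ) ≤ m := by exact_mod_cast hm
  have h1 := pow_le_exp m (by omega)
  have h2 : exp (6 * ((m : ℝ) + 1) / (m + 4)) = (exp 3 / exp (9 / (m + 4))) ^ 2 := by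
    rw [← exp_sub, ← exp_nat_mul]
    congr 1
    have : (m : ℝ) + 4 ≠ 0 := by positivity
    push_cast
    field_simp
    ring
  have h3 : 1 + 9 / ((m : ℝ) + 4) + (9 / ((m : ℝ) + 4)) ^ 2 / 2 ≤ exp (9 / (m + 4)) :=
    quadratic_le_exp_of_nonneg (by positivity)
  have h4 := exp_three_le
  have hA : (2 * m + 3 : ℝ) * (m + 6) ^ 2 / 54 * (exp 3 / exp (9 / (m + 4))) ≤
      3 / 4 * (m + 1) * (m + 2) ^ 2 := by
    have hE : 0 < exp (9 / ((m : ℝ) + 4)) := exp_pos _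
    rw [mul_div_assoc', div_le_iff₀ hE]
    calc (2 * m + 3 : ℝ) * (m + 6) ^ 2 / 54 * exp 3
        ≤ (2 * m + 3 : ℝ) * (m + 6) ^ 2 / 54 * 20.0856 :=
          mul_le_mul_of_nonneg_left h4 (by positivity)
      _ ≤ 3 / 4 * (m + 1) * (m + 2) ^ 2 *
          (1 + 9 / ((m : ℝ) + 4) + (9 / ((m : ℝ) + 4)) ^ 2 / 2) := by
          have e : 1 + 9 / ((m : ℝ) + 4) + (9 / ((m : ℝ) + 4)) ^ 2 / 2 =
              ((m + 4) ^ 2 + 9 * (m + 4) + 81 / 2) / ((m : ℝ) + 4) ^ 2 := by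
            field_simp
            ring
          rw [e, mul_div_assoc', le_div_iff₀ (by positivity)]
          obtain ⟨k, hk⟩ : ∃ k : ℝ, (m : ℝ) = k + 10 := ⟨m - 10, by ring⟩
          have hk0 : 0 ≤ k := by linarith
          rw [hk]
          rw [← sub_nonneg]
          ring_nf
          positivity
      _ ≤ _ := mul_le_mul_of_nonneg_left h3 (by positivity)
  calc ((2 * m + 3 : ℝ) * (m + 6) ^ 2 / 54) ^ 2 * ((m + 6 : ℝ) / m) ^ m
      ≤ ((2 * m + 3 : ℝ) * (m + 6) ^ 2 / 54) ^ 2 * (exp 3 / exp (9 / (m + 4))) ^ 2 := by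
        rw [← h2]
        exact mul_le_mul_of_nonneg_left h1 (by positivity)
    _ = ((2 * m + 3 : ℝ) * (m + 6) ^ 2 / 54 * (exp 3 / exp (9 / (m + 4)))) ^ 2 := by ring
    _ ≤ _ := pow_le_pow_left₀ (by positivity) hA 2

theorem final_sq (m : ℕ) (hm : 1 ≤ m) :
    ((2 * m + 3 : ℝ) * (m + 6) ^ 2 / 54) ^ 2 * ((m + 6 : ℝ) / m) ^ m ≤
      (3 / 4 * (m + 1) * (m + 2) ^ 2) ^ 2 := by
  by_cases h : 10 ≤ m
  · exact final_sq_large m h
  · have : m < 10 := by omega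
    interval_cases m <;> norm_num

/-- **The final inequality** (`m = n - 1`, `ρ = √(m / (m + 6))`, `x = ρ²`):
`2 (1 + 3x) / (1 - x)³ ≤ (3/4) (m + 1) (m + 2)² ρ ^ m`. -/
theorem final_ineq (m : ℕ) (hm : 1 ≤ m) :
    2 * (1 + 3 * ((m : ℝ) / (m + 6))) / (1 - (m : ℝ) / (m + 6)) ^ 3 ≤
      3 / 4 * (m + 1) * (m + 2) ^ 2 * √((m : ℝ) / (m + 6)) ^ m := by
  have hm' : (1 : ℝ) ≤ m := by exact_mod_cast hm
  have hpos : (0 : ℝ) < m := by linarith
  have h1 : 2 * (1 + 3 * ((m : ℝ) / (m + 6))) / (1 - (m : ℝ) / (m + 6)) ^ 3 =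
      (2 * m + 3 : ℝ) * (m + 6) ^ 2 / 54 := by
    have : (1 : ℝ) - (m : ℝ) / (m + 6) = 6 / (m + 6) := by field_simp; ring
    rw [this]
    field_simp
    ring
  rw [h1]
  have hx : (0 : ℝ) < (m : ℝ) / (m + 6) := by positivity
  have hr : 0 < √((m : ℝ) / (m + 6)) := sqrt_pos.mpr hx
  have h2 := final_sq m hm
  have h3 : (√((m : ℝ) / (m + 6)) ^ m) ^ 2 = ((m : ℝ) / (m + 6)) ^ m := by
    rw [← pow_mul, mul_comm, pow_mul, sq_sqrt hx.le]
  have h4 : ((m : ℝ) / (m + 6)) ^ m * ((m + 6 : ℝ) / m) ^ m = 1 := by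
    rw [← mul_pow]
    have : (m : ℝ) / (m + 6) * ((m + 6 : ℝ) / m) = 1 := by field_simp
    rw [this, one_pow]
  apply le_of_sq_le_sq _ (by positivity)
  calc ((2 * m + 3 : ℝ) * (m + 6) ^ 2 / 54) ^ 2
      = ((2 * m + 3 : ℝ) * (m + 6) ^ 2 / 54) ^ 2 * ((m + 6 : ℝ) / m) ^ m *
          ((m : ℝ) / (m + 6)) ^ m := by
        rw [mul_assoc, mul_comm (((m + 6 : ℝ) / m) ^ m), h4, mul_one]
    _ ≤ (3 / 4 * (m + 1) * (m + 2) ^ 2) ^ 2 * ((m : ℝ) / (m + 6)) ^ m :=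
        mul_le_mul_of_nonneg_right h2 (by positivity)
    _ = (3 / 4 * (m + 1) * (m + 2) ^ 2 * √((m : ℝ) / (m + 6)) ^ m) ^ 2 := by
        rw [← h3]; ring

end PoolIM64
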